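import Mathlib
import Pool.Agent.H8.SA.Defs
import Pool.Agent.H8.SA.Inf

set_option autoImplicit false

namespace Pool.Agent.Results.MP_fdf3ca_an.Both

open Pool.Agent.H8.SA

/-- The strongly annular functions are spaceable in `H(𝔻)` and in every `B^p_α`. -/
theorem result : SpaceableHD ∧ ∀ p α : ℝ, 0 < p → -1 < α → SpaceableBerg p α :=
  ⟨main1, main2⟩

end Pool.Agent.Results.MP_fdf3ca_an.Both
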